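import Pool.Agent.Helper42.PW.Goals3
import Pool.Agent.Helper8.PPB.BGL0
import Pool.Agent.Helper56.PPB.BSPA
import Pool.Agent.Helper85.PPB.BNIN
import Pool.Agent.Helper96.PPB.BSTB
import Pool.Agent.Helper3.PPB.BTOR
import Pool.Agent.Helper53.PPB.BPRM

/-!
# Project W (MP_fc6b1e_nt), packet W_GL0
-/

set_option autoImplicit false

namespace Pool.Agent.Helper24.PW

open NumberField Polynomial Module IsDedekindDomain TensorProduct Pool.Agent.Helper51.SigLeo
open Pool.Agent.Helper51.RP Pool.Agent.Helper11.PP Pool.Agent.Helper77.PPB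
open Pool.Agent.Helper42.PW
open Pool.Agent.Helper11.LE (Cyc)
open Pool.Agent.Helper42.RD (TSet)
open Pool.Agent.Helper77.RL (Sqr SplitAt)
open Pool.Agent.Helper38.FD
open Pool.Agent.Helper79.RD (eq_on_sup map_sup_mem map_mem_normal)
open Pool.Agent.Helper13.RL
open Pool.Agent.Helper8.PPB (eq_one_sup aut_self above_id torOK_one finrank_cut)
open Pool.Agent.Helper40.RS (bel)
open Pool.Agent.Helper22.PP (bel_bel)

/-- An automorphism of a compositum of three fields which is trivial on them. -/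
theorem eq_one_sup3 {K Ω : Type} [Field K] [Field Ω] [Algebra K Ω]
    {J E L F₁ F : IntermediateField K Ω} (hL : L = J ⊔ E) (hF : F = L ⊔ F₁) (g : F ≃ₐ[K] F)
    (hJ : ∀ y : F, (y : Ω) ∈ J → g y = y) (hE : ∀ y : F, (y : Ω) ∈ E → g y = y)
    (hF₁ : ∀ y : F, (y : Ω) ∈ F₁ → g y = y) : g = 1 := by
  subst hL
  have hJF : J ≤ F := by rw [hF]; exact le_sup_left.trans le_sup_left
  have hEF : E ≤ F := by rw [hF]; exact le_sup_right.trans le_sup_left
  refine eq_one_sup hF g (fun y hy => ?_) hF₁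
  -- the fixed field of `g` as an intermediate field of `Ω`
  let X : IntermediateField K Ω :=
    (IntermediateField.fixedField (Subgroup.zpowers g)).map (IntermediateField.val F)
  have hX : ∀ y : F, (y : Ω) ∈ X ↔ g y = y := by
    intro y
    constructor
    · rintro ⟨z, hz, hzy⟩
      have e1 : z = y := Subtype.ext hzy
      rw [← e1]
      exact hz ⟨g, Subgroup.mem_zpowers g⟩
    · intro h
      refine ⟨y, ?_, rfl⟩
      rintro ⟨σ, hσ⟩
      obtain ⟨k, rfl⟩ := Subgroup.mem_zpowers_iff.1 hσ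
      have h2 : g ∈ MulAction.stabilizer (F ≃ₐ[K] F) y := h
      exact (MulAction.stabilizer (F ≃ₐ[K] F) y).zpow_mem h2 k
  have h1 : J ⊔ E ≤ X := by
    refine sup_le (fun x hx => ?_) (fun x hx => ?_)
    · exact (hX ⟨x, hJF hx⟩).2 (hJ ⟨x, hJF hx⟩ hx)
    · exact (hX ⟨x, hEF hx⟩).2 (hE ⟨x, hEF hx⟩ hx)
  exact (hX y).1 (h1 hy)

/-- A place which splits completely in `F₁` splits completely in `J E F₁`. -/
theorem splF_sup {p : ℕ} [Fact p.Prime] {K : Type} [Field K] [NumberField K]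
    {J E L F₁ F : IntermediateField K (AlgebraicClosure K)} [NumberField J] [NumberField E]
    [NumberField F₁] [NumberField F] [IsGalois K J] [IsGalois K E] [IsGalois K F₁]
    (hL : L = J ⊔ E) (hF : F = L ⊔ F₁)
    (hsplJ : ∀ v : HeightOneSpectrum (𝓞 K), (p : 𝓞 K) ∈ v.asIdeal →
      ∀ V : HeightOneSpectrum (𝓞 J), Above V v → FreeP K V)
    (hsplE : ∀ v : HeightOneSpectrum (𝓞 K), (p : 𝓞 K) ∈ v.asIdeal →
      ∀ V : HeightOneSpectrum (𝓞 E), Above V v → FreeP K V)
    {σ : K →+* ℂ_[p]} (h : SplF σ F₁) : SplF σ F := by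
  have hJF : J ≤ F := by rw [hF, hL]; exact le_sup_left.trans le_sup_left
  have hEF : E ≤ F := by rw [hF, hL]; exact le_sup_right.trans le_sup_left
  have hF₁F : F₁ ≤ F := by rw [hF]; exact le_sup_right
  let _ : Algebra J F := (IntermediateField.inclusion hJF).toRingHom.toAlgebra
  let _ : Algebra E F := (IntermediateField.inclusion hEF).toRingHom.toAlgebra
  let _ : Algebra F₁ F := (IntermediateField.inclusion hF₁F).toRingHom.toAlgebra
  have t1 : IsScalarTower K J F := IsScalarTower.of_algebraMap_eq fun x => rfl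
  have t2 : IsScalarTower K E F := IsScalarTower.of_algebraMap_eq fun x => rfl
  have t3 : IsScalarTower K F₁ F := IsScalarTower.of_algebraMap_eq fun x => rfl
  intro V hV
  have hpv : (p : 𝓞 K) ∈ (bel K V).asIdeal := by
    have e1 : algebraMap (𝓞 K) (𝓞 F) (p : 𝓞 K) ∈ V.asIdeal := by
      rw [hV]
      have e2 : ((p : 𝓞 K) : K) = p := map_natCast (algebraMap (𝓞 K) K) p
      have hp1 : (1 : ℝ) < p := by exact_mod_cast (Fact.out : p.Prime).one_lt
      rw [e2, map_natCast, Pool.Agent.Helper42.RD.norm_p p, div_lt_one (by linarith)]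
      exact hp1
    exact e1
  have hJ : FreeP K (bel J V) := by
    refine hsplJ (bel K V) hpv (bel J V) ?_
    rw [← bel_bel (K := K) (N := J)]
    rfl
  have hE : FreeP K (bel E V) := by
    refine hsplE (bel K V) hpv (bel E V) ?_
    rw [← bel_bel (K := K) (N := E)]
    rfl
  have hF₁ : FreeP K (bel F₁ V) := by
    refine h (bel F₁ V) fun x => ?_
    rw [← hV x]
    have e1 : algebraMap (𝓞 K) (𝓞 F) x = algebraMap (𝓞 F₁) (𝓞 F) (algebraMap (𝓞 K) (𝓞 F₁) x) := rfl
    rw [e1]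
    exact Iff.rfl
  intro g hg
  have g1 := Pool.Agent.Helper79.PP.fix_of_free (K := K) (A := J) V hJ g hg
  have g2 := Pool.Agent.Helper79.PP.fix_of_free (K := K) (A := E) V hE g hg
  have g3 := Pool.Agent.Helper79.PP.fix_of_free (K := K) (A := F₁) V hF₁ g hg
  exact eq_one_sup3 hL hF g (fun y hy => g1 ⟨y, hy⟩) (fun y hy => g2 ⟨y, hy⟩)
    (fun y hy => g3 ⟨y, hy⟩)

theorem w_gl0 (h1 : W_TRV) (h2 : W_PRM) (h3 : W_CO0) : Pool.Agent.Helper42.PW.W_GL0 := by
  intro p hpf K _ _ ιinf ιp Lg S hcl hnr M₁ J M₂ _ _ _ _ _ hM₂ hcop hJd hsplJ ψ₁ ψ F₁ _ hgF₁ hcF₁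
    hψ₁p hψ₁J hT ε α hε hεM₁ hgen hom hnp hgs hsel E _ _ hE hEd hnt hsplE hramE hunrE
  have hp := hpf.out
  obtain ⟨l₁, hJd⟩ := hJd
  obtain ⟨l₂, hEd⟩ := hEd
  have hgΩ : IsGalois K (AlgebraicClosure K) := inferInstance
  have hfM₁ : FiniteDimensional K M₁ := Module.Finite.of_restrictScalars_finite ℚ K M₁
  have hfJ : FiniteDimensional K J := Module.Finite.of_restrictScalars_finite ℚ K J
  have hfE : FiniteDimensional K E := Module.Finite.of_restrictScalars_finite ℚ K E
  have hfF₁ : FiniteDimensional K F₁ := Module.Finite.of_restrictScalars_finite ℚ K F₁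
  have hfM₂ : FiniteDimensional K M₂ := Module.Finite.of_restrictScalars_finite ℚ K M₂
  -- the field `L`
  obtain ⟨L, hL⟩ : ∃ L : IntermediateField K (AlgebraicClosure K), L = J ⊔ E := ⟨_, rfl⟩
  have hgL : IsGalois K L := by rw [hL]; infer_instance
  have hfL : FiniteDimensional K L := by rw [hL]; infer_instance
  have hnL : NumberField L := NumberField.of_module_finite K L
  obtain ⟨n, hLd⟩ : ∃ n, finrank K L = p ^ n := by
    have h := finrank_sup_dvd (L := J) (N := E) finrank_pos finrank_pos inferInstance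
      inferInstance
    rw [hJd, hEd, ← pow_add] at h
    obtain ⟨n, -, hn⟩ := (Nat.dvd_prime_pow hp).1 h
    exact ⟨n, by rw [hL]; exact hn⟩
  have hJL : J ≤ L := by rw [hL]; exact le_sup_left
  have hEL : E ≤ L := by rw [hL]; exact le_sup_right
  have hntL : ∃ g : AlgebraicClosure K ≃ₐ[K] AlgebraicClosure K, (∀ x ∈ L, g x = x) ∧ ψ₁ g ≠ 1 := by
    rw [hL]; exact hnt
  -- the field `F`
  obtain ⟨F, hF⟩ : ∃ F : IntermediateField K (AlgebraicClosure K), F = L ⊔ F₁ := ⟨_, rfl⟩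
  have hgF : IsGalois K F := by rw [hF]; infer_instance
  have hfF : FiniteDimensional K F := by rw [hF]; infer_instance
  have hLF : L ≤ F := by rw [hF]; exact le_sup_left
  have hF₁F : F₁ ≤ F := by rw [hF]; exact le_sup_right
  have hFd : finrank K F = p ^ (n + 1) := by
    rw [finrank_cut hp hF hcF₁ (fun g hg => hψ₁J g fun x hx => hg x (hJL hx)) hntL, hLd, pow_succ]
  have hnF : NumberField F := NumberField.of_module_finite K F
  -- the field `M₂'`
  obtain ⟨M₂', hM₂'⟩ : ∃ X : IntermediateField K (AlgebraicClosure K), X = M₁ ⊔ L := ⟨_, rfl⟩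
  have hM₁M₂ : M₁ ≤ M₂ := by rw [hM₂]; exact le_sup_left
  have hJM₂ : J ≤ M₂ := by rw [hM₂]; exact le_sup_right
  have hM₁M₂' : M₁ ≤ M₂' := by rw [hM₂']; exact le_sup_left
  have hLM₂' : L ≤ M₂' := by rw [hM₂']; exact le_sup_right
  have hM₂M₂' : M₂ ≤ M₂' := by rw [hM₂]; exact sup_le hM₁M₂' (hJL.trans hLM₂')
  have hM₂'E : M₂' = M₂ ⊔ E := by
    apply le_antisymm
    · rw [hM₂', hL]
      exact sup_le (hM₁M₂.trans le_sup_left) (sup_le (hJM₂.trans le_sup_left) le_sup_right)
    · exact sup_le hM₂M₂' (hEL.trans hLM₂')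
  have hgM₂ : IsGalois K M₂ := by rw [hM₂]; infer_instance
  have hgM₂' : IsGalois K M₂' := by rw [hM₂']; infer_instance
  have hfM₂' : FiniteDimensional K M₂' := by rw [hM₂']; infer_instance
  have hnM₂' : NumberField M₂' := NumberField.of_module_finite K M₂'
  -- algebras
  let _ : Algebra M₁ M₂ := (IntermediateField.inclusion hM₁M₂).toRingHom.toAlgebra
  let _ : Algebra M₁ M₂' := (IntermediateField.inclusion hM₁M₂').toRingHom.toAlgebra
  let _ : Algebra L M₂' := (IntermediateField.inclusion hLM₂').toRingHom.toAlgebra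
  let _ : Algebra M₂ M₂' := (IntermediateField.inclusion hM₂M₂').toRingHom.toAlgebra
  let _ : Algebra J L := (IntermediateField.inclusion hJL).toRingHom.toAlgebra
  let _ : Algebra E L := (IntermediateField.inclusion hEL).toRingHom.toAlgebra
  let _ : Algebra E M₂' := (IntermediateField.inclusion (hEL.trans hLM₂')).toRingHom.toAlgebra
  have t1 : IsScalarTower K M₁ M₂' := IsScalarTower.of_algebraMap_eq fun x => rfl
  have t2 : IsScalarTower K L M₂' := IsScalarTower.of_algebraMap_eq fun x => rfl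
  have t3 : IsScalarTower K M₂ M₂' := IsScalarTower.of_algebraMap_eq fun x => rfl
  have t4 : IsScalarTower M₁ M₂ M₂' := IsScalarTower.of_algebraMap_eq fun x => rfl
  have t5 : IsScalarTower K J L := IsScalarTower.of_algebraMap_eq fun x => rfl
  have t6 : IsScalarTower K E L := IsScalarTower.of_algebraMap_eq fun x => rfl
  have t7 : IsScalarTower K E M₂' := IsScalarTower.of_algebraMap_eq fun x => rfl
  -- the squares
  have hq1 : Sqr p n K K L L :=
    { galM := inferInstance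
      galL := hgL
      gal := hgL
      cop := by rw [finrank_self]; exact Nat.coprime_one_left p
      deg := hLd
      gen := fun g _ h => by
        ext x
        exact congrArg Subtype.val (h x) }
  have hq2 : Sqr p n K M₁ L M₂' :=
    sqr_sup' hM₂' (fun _ => rfl) (fun _ => rfl) inferInstance hgL hcop hLd
  -- the element
  have hε' : IsPrimitiveRoot (⟨(ε : AlgebraicClosure K), hεM₁⟩ : M₁) p :=
    IsPrimitiveRoot.of_map_of_injective (f := algebraMap M₁ M₂) hε (RingHom.injective _)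
  have hom' : OmType p K (algebraMap M₁ M₂ ⟨(ε : AlgebraicClosure K), hεM₁⟩) (α : M₂) := hom
  have hstab := Pool.Agent.Helper96.PPB.b_stb p n K K M₁ L L M₂ M₂' hq1 hq2
    ⟨(ε : AlgebraicClosure K), hεM₁⟩ (α : M₂) hε' hom'
  -- the primes
  have hcond : CondV p K K M₂ M₂' (α : M₂) := by
    refine h2 p K K M₂ E M₂' ?_ (α : M₂) hsplE hramE fun v _ V hV x => hunrE v V hV x
    intro g g1 g2
    exact eq_one_sup hM₂'E g (fun y hy => g1 ⟨y, hy⟩) (fun y hy => g2 ⟨y, hy⟩)
  have hspl : ∀ τ' : L →+* ℂ_[p], SplitAt K τ' := by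
    refine Pool.Agent.Helper56.PPB.b_spa p K K J E L ?_ hsplJ hsplE
    intro g _ g1 g2
    exact eq_one_sup hL g (fun y hy => g1 ⟨y, hy⟩) (fun y hy => g2 ⟨y, hy⟩)
  -- the lifting theorem
  have hirr : Irreducible (X - 1 : (ZMod p)[X]) := by
    have h := irreducible_X_sub_C (1 : ZMod p)
    rwa [map_one] at h
  have htor : TorOK (X - 1 : (ZMod p)[X]) (1 : L ≃ₐ[L] L) :=
    Pool.Agent.Helper3.PPB.b_tor p K K L L n hLd 1 1 _ (fun _ => rfl) (torOK_one hnr)
  have hne : Nonempty (AlgebraicClosure ℚ →+* ℂ_[p]) :=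
    Pool.Agent.Helper50.RS.nonempty_hom ℚ ℂ_[p]
  have hα0 : (α : M₂) ≠ 0 := α.ne_zero
  have hlift := h1 p ℂ_[p] hne Lg n 1 K K L L M₂ M₂' hq1 1 1 (X - 1) hirr (one_pow 1)
    (fun _ => rfl) htor
    (fun w hw => absurd (fun g _ => aut_self g) hw) (TSet ιinf ιp S)
    (fun τ' _ => hspl τ') (α : M₂) hα0 hstab hcond hsel
  -- the Kummer generator
  obtain ⟨s, hs⟩ := IsAlgClosed.exists_pow_nat_eq ((α : M₂) : AlgebraicClosure K) hp.pos
  have hsM₂ : s ∉ M₂ := by
    intro h
    apply hnp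
    have e1 : (⟨s, h⟩ : M₂) ^ p = (α : M₂) := Subtype.ext hs
    refine ⟨Units.mk0 (⟨s, h⟩ : M₂) ?_, ?_⟩
    · intro h0
      rw [h0, zero_pow hp.ne_zero] at e1
      exact hα0 e1.symm
    · apply Units.ext
      rw [Units.val_pow_eq_pow_val, Units.val_mk0]
      exact e1.symm
  have hsg : ∀ g : AlgebraicClosure K ≃ₐ[K] AlgebraicClosure K, (∀ x ∈ M₂, g x = x) →
      ψ₁ g = 1 → g s = s := fun g g1 g2 => hgs s hs g g1 g2
  have hsM₂' : s ∉ M₂' := by
    rw [hM₂']
    exact Pool.Agent.Helper85.PPB.b_nin p K M₁ J L M₂ hM₂ hJL hcop ψ₁ ⟨F₁, hfF₁, hcF₁⟩ hψ₁p hψ₁J s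
      (by rw [hs]; exact (α : M₂).2) hsM₂ hsg hntL
  have ha0 : algebraMap M₂ M₂' (α : M₂) ≠ 0 := (_root_.map_ne_zero _).2 hα0
  have hgLM₂' : IsGalois L M₂' := IsGalois.tower_top_of_isGalois K L M₂'
  have hcyc : Cyc p L M₂' (algebraMap M₂ M₂' ε) :=
    { prim := hε.map_of_injective (algebraMap M₂ M₂').injective
      gal := hgLM₂'
      gen := by
        intro g hg
        have hr := AlgEquiv.restrictNormal_commutes (g.restrictScalars K) M₁
        have e1 : (g.restrictScalars K).restrictNormal M₁ = 1 := by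
          apply hgen
          intro x hx
          apply (algebraMap M₁ M₂').injective
          rw [hr x]
          have e2 : algebraMap M₁ M₂' x = algebraMap M₂ M₂' ε := Subtype.ext hx
          rw [e2]
          exact hg
        have e3 : g.restrictScalars K = 1 := by
          refine eq_one_sup hM₂' _ (fun z hz => ?_) (fun z hz => ?_)
          · have e4 := hr ⟨z, hz⟩
            rw [e1] at e4
            exact e4.symm
          · exact g.commutes ⟨z, hz⟩
        ext x
        exact congrArg Subtype.val (AlgEquiv.congr_fun e3 x) }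
  have homL : OmType p L (algebraMap M₂ M₂' ε) (algebraMap M₂ M₂' (α : M₂)) := by
    intro τ
    have hr := AlgEquiv.restrictNormal_commutes (τ.restrictScalars K) M₂
    obtain ⟨h, hh⟩ : ∃ h : M₂ ≃ₐ[K] M₂, h = (τ.restrictScalars K).restrictNormal M₂ := ⟨_, rfl⟩
    rw [← hh] at hr
    have hr' : ∀ x : M₂, τ (algebraMap M₂ M₂' x) = algebraMap M₂ M₂' (h x) := fun x => (hr x).symm
    obtain ⟨m, c, e1, e2⟩ := hom h
    refine ⟨m, algebraMap M₂ M₂' c, ?_, ?_⟩
    · rw [hr', e1, map_pow]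
    · rw [hr', e2, map_mul, map_pow, map_pow]
  have hselO : ∀ x : Lˣ,
      (∀ W : HeightOneSpectrum (𝓞 M₂'), LocW p W (algebraMap M₂ M₂' (α : M₂))
        (algebraMap L M₂' (x : L))) →
      LocSig Lg (above (TSet ιinf ιp S) : Set (L →+* ℂ_[p])) x → Pw p x := by
    intro x hx1 hx2
    refine hlift x ⟨Pool.Agent.Helper86.PPO.pw_pol_one _ (by simp) x, hx1, ?_⟩
    rw [above_id]
    exact hx2
  have hTF : ∀ σ ∈ TSet ιinf ιp S,
      SplF σ F ∨ NonOm (1 : Chr K (AlgebraicClosure K) ℂ_[p]) σ := by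
    intro σ hσ
    rcases hT σ hσ with h | h
    · exact Or.inl (splF_sup hL hF hsplJ hsplE h)
    · exact Or.inr h
  -- the characters
  have hcut : ∀ g : AlgebraicClosure K ≃ₐ[K] AlgebraicClosure K, (∀ x ∈ F, g x = x) →
      (ψ₁ * ψ) g = 1 := by
    intro g hg
    rw [MonoidHom.mul_apply, (hcF₁ g).2 fun x hx => hg x (hF₁F hx),
      (hE g).2 fun x hx => hg x (hLF (hEL hx)), one_mul]
  obtain ⟨H, fH, hH⟩ := exists_cutsOut (ψ₁ * ψ) F hcut
  have jH := isGalois_of_cutsOut hH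
  obtain ⟨χ', hinj, hχ'⟩ := exists_faithful hH
  obtain ⟨η, hη⟩ := exists_desc (χ := ψ₁ * ψ) (H := F) hcut
  have r : ∀ (g : AlgebraicClosure K ≃ₐ[K] AlgebraicClosure K)
      (X : IntermediateField K (AlgebraicClosure K)) [IsGalois K X],
      Restricts (algebraMap X (AlgebraicClosure K)) g (AlgEquiv.restrictNormalHom X g) :=
    fun g X _ x => (AlgEquiv.restrictNormal_commutes g X x).symm
  refine ⟨H, fH, hH, χ', hχ', ?_⟩
  refine h3 p K ιinf ιp Lg S hcl n L F M₂' (fun _ => rfl) hLF hLd hFd hTF (algebraMap M₂ M₂' ε)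
    (algebraMap M₂ M₂' (α : M₂)) hcyc homL ha0 s (by rw [hs]; rfl) hsM₂' (fun g g1 g2 => ?_) hselO
    H χ' η hinj ?_ fun g => ?_
  · exact hsg g (fun x hx => g2 x (hM₂M₂' hx)) ((hcF₁ g).2 fun x hx => g1 x (hF₁F hx))
  · obtain ⟨g, g1, g2⟩ := hntL
    refine ⟨AlgEquiv.restrictNormalHom F g, fun x hx => ?_, ?_⟩
    · apply Subtype.ext
      have e1 := r g F x
      exact e1.symm.trans (g1 _ hx)
    · rw [← hη g _ (r g F), MonoidHom.mul_apply, (hE g).2 fun x hx => g1 x (hEL hx), mul_one]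
      exact g2
  · rw [← hχ' g _ (r g H), hη g _ (r g F)]

end Pool.Agent.Helper24.PW
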